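import Pool.Agent.H36.Fill.Smear3

open scoped ENNReal NNReal

namespace Pool.Agent.Results.MP_b8ac35_gt.SuperEuclidean

open Pool.Agent.H36.Fill MeasureTheory

theorem result {V : Type*} [NormedAddCommGroup V] [InnerProductSpace ℝ V]
    [FiniteDimensional ℝ V] (G : StratifiedGroup V) (hG : ∃ x y, G.mul x y ≠ G.mul y x) :
    ∃ k : ℕ, 1 ≤ k ∧ k ≤ Module.finrank ℝ V - 1 ∧
      ¬ Dominated (G.FV k) (fun r => (r : ℝ≥0∞) ^ (((k : ℝ) + 1) / k)) := by
  by_contra hcon
  push Not at hcon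
  have hpos : 0 < Module.finrank ℝ V := by
    rcases Nat.eq_zero_or_pos (Module.finrank ℝ V) with h | h
    · obtain ⟨x, y, hxy⟩ := hG
      have : Subsingleton V := Module.finrank_zero_iff.mp h
      exact absurd (Subsingleton.elim _ _) hxy
    · exact h
  obtain ⟨m, hm⟩ : ∃ m, Module.finrank ℝ V = m + 1 := ⟨Module.finrank ℝ V - 1, by omega⟩
  have hHyp : G.Hyp m := fun k h1 h2 => hcon k h1 (by omega)
  let _ : MeasurableSpace V := borel V
  have : BorelSpace V := ⟨rfl⟩
  obtain ⟨D, r, κ, K, hκ, hK, hr, hB⟩ := G.propB (Measure.addHaar : Measure V) hm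
  obtain ⟨c, b, hcb, hc, hb⟩ := G.propA hm hHyp D
  obtain ⟨C, hC⟩ := hc r
  have hQ : m + 2 ≤ G.homDim := by
    have := G.finrank_lt_homDim hG
    omega
  have hC0 : 0 ≤ C := by
    have h := hC 1 le_rfl (fun _ => 0) (by
      intro i j
      rw [G.neg_mul_self, norm_zero]; exact hr)
    have := (abs_nonneg _).trans h
    simpa using this
  have key : ∀ R : ℝ, 1 ≤ R → R * κ ≤ K * C := by
    intro R hR
    have hR0 : 0 < R := by linarith
    obtain ⟨B, hBb⟩ := hb (‖G.dilL R‖ * r)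
    have h1 := hB (R ^ G.homDim) (C * R ^ (m + 1)) B (fun p => c fun i => G.dil R (p i))
      (fun p => b fun i => G.dil R (p i)) (by positivity) ?_ (fun p hp => hC R hR p hp) ?_
    · have h2 : R ^ (m + 2) ≤ R ^ G.homDim := pow_le_pow_right₀ hR hQ
      have h3 : R ^ (m + 2) * κ ≤ R ^ G.homDim * κ := mul_le_mul_of_nonneg_right h2 hκ.le
      have h4 : R ^ (m + 1) * (R * κ) ≤ R ^ (m + 1) * (K * C) := by
        calc R ^ (m + 1) * (R * κ) = R ^ (m + 2) * κ := by ring
          _ ≤ K * (C * R ^ (m + 1)) := h3.trans h1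
          _ = _ := by ring
      exact le_of_mul_le_mul_left h4 (by positivity)
    · intro p
      have h2 := hcb fun i => G.dil R (p i)
      rw [G.cc_dil D hm hR0] at h2
      exact h2
    · intro p hp
      apply hBb
      intro i j
      rw [← map_neg, ← G.dil_mul R _ _ hR0]
      calc ‖G.dil R (G.mul (-(p i)) (p j))‖ ≤ ‖G.dilL R‖ * ‖G.mul (-(p i)) (p j)‖ :=
            (G.dilL R).le_opNorm _
        _ ≤ _ := mul_le_mul_of_nonneg_left (hp i j) (norm_nonneg _)
  have h := key (K * C / κ + 1) (by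
    have : 0 ≤ K * C / κ := by positivity
    linarith)
  have h2 : (K * C / κ + 1) * κ = K * C + κ := by field_simp
  rw [h2] at h
  linarith

end Pool.Agent.Results.MP_b8ac35_gt.SuperEuclidean
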